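import Pool.Agent.H.MP_ee9c6f_al.E4.Model3

/-!
# A subgroup of finite index in groups with the braid relations of type `E_7`  (module G3F/Fin)

`a 1, …, a 6` is a chain, `a 0` is joined to `a 4`.  The 56 weights of the minuscule representation are
numbered in an order in which the depth does not decrease; `nx n i` is the image of the weight `n`
under the reflection `i`, `pr n i ∈ {0, 1, 2}` its pairing with the simple root `i` modulo `3`, `par n`,
`lab n` an upper neighbour and the reflection.  With `g n = g (par n) * a (lab n)` the set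
`⋃ H g n`, `H = ⟨a 1 ^ 2, a 2, …, a 6, a 0⟩`, is closed under right multiplication by the generators.
-/

set_option autoImplicit false

namespace Pool.Agent.H.MP_ee9c6f_al.G3F

/-- the generators `i` and `j` are joined -/
def meet (i j : ℕ) : Bool :=
  (decide (1 ≤ i) && decide (i + 1 = j)) || (decide (1 ≤ j) && decide (j + 1 = i)) ||
    (decide (i = 0) && decide (j = 4)) || (decide (i = 4) && decide (j = 0))

private def nxT : ℕ → ℕ
  | 0 => 122173024986650405885441991848821161285057460302266828469540509454764761887281939803589206521150185536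
  | 1 => 120019950182806741932911090877139536917484971838524018665246887607176385771020472645697831788627107841
  | 2 => 122139383319199264962108301461109341490481947309487622150745978991552368335507991064373602992293417088
  | 3 => 122172499461955397891724452973635593152191704051361873931166628187490306373933034152909191456448065600
  | 4 => 122173016901684968307884837745037527645870047886842576728293957570135776562815299314305256563059728448
  | 5 => 122173024850264994393213985564391056587859719702627880336889870545621533793668062441916410052972650560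
  | _ => 122173025114949885134700178273139616982859700564330009290553728406110927845977861705545934377751158848

private def prT : ℕ → ℕ
  | 0 => 12162760886599594101141024119040
  | 1 => 2920667022071982409519131034386441
  | 2 => 730167393830848934563940564729892
  | 3 => 182552061453150651956777953001616
  | 4 => 45801382985321558736762874380864
  | 5 => 13072812618395207891005778994432
  | _ => 823970673469522052550448533504

private def nx (n i : ℕ) : ℕ := nxT i / 64 ^ n % 64

private def pr (n i : ℕ) : ℕ := prT i / 4 ^ n % 4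

private def par (n : ℕ) : ℕ := 119951055992319091339759813003866421560860339130827790504938359661180541649139237666149551588493496320 / 64 ^ n % 64

private def lab (n : ℕ) : ℕ := 61083126046535744106135786498175940357834985981576 / 8 ^ n % 8

private def chk0 : Bool := (List.range 7).all fun i => pr 0 i == (if i = 1 then 1 else 0)

private def chk1 (n i : ℕ) : Bool :=
  decide (nx n i < 56) && decide (nx (nx n i) i = n) &&
    (decide (pr n i = 0) && decide (nx n i = n) ||
      decide (pr n i = 1) && decide (pr (nx n i) i = 2) ||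
      decide (pr n i = 2) && decide (pr (nx n i) i = 1) && decide (nx n i < n))

private def chk2 (n : ℕ) : Bool :=
  decide (par n < n) && decide (lab n < 7) && decide (pr (par n) (lab n) = 1) &&
    decide (nx (par n) (lab n) = n)

private def chk3 (n i : ℕ) : Bool :=
  (decide (pr n i ≠ 2) || decide (i = lab n) ||
      (!meet i (lab n) && decide (pr (par n) i = 2) && decide (pr (nx n i) (lab n) = 2) &&
        decide (nx (nx n i) (lab n) = nx (par n) i))) &&
    (decide (pr n i ≠ 0) || (!meet i (lab n) && decide (i ≠ lab n) && decide (pr (par n) i = 0)) ||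
      (meet i (lab n) && decide (pr (par n) i = 2) && decide (pr (nx (par n) i) (lab n) = 0))) &&
    (decide (pr n i ≠ 1) || (!meet i (lab n) && decide (i ≠ lab n) && decide (pr (par n) i = 1)) ||
      (meet i (lab n) && decide (pr (par n) i = 0)))

private def chk : Bool := chk0 && (List.range 56).all fun n =>
  ((List.range 7).all fun i => chk1 n i) &&
    (decide (n = 0) || (chk2 n && (List.range 7).all fun i => chk3 n i))

private theorem chk_true : chk = true := by decide +kernel

private theorem c0 {i : ℕ} (hi : i < 7) : pr 0 i = if i = 1 then 1 else 0 := by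
  have h := chk_true
  unfold chk chk0 at h
  simp only [Bool.and_eq_true, List.all_eq_true, List.mem_range, beq_iff_eq] at h
  exact h.1 i hi

private theorem c1 {n i : ℕ} (hn : n < 56) (hi : i < 7) : chk1 n i = true := by
  have h := chk_true
  unfold chk at h
  simp only [Bool.and_eq_true, List.all_eq_true, List.mem_range] at h
  exact (h.2 n hn).1 i hi

private theorem c2 {n : ℕ} (hn : n < 56) (h0 : n ≠ 0) :
    chk2 n = true ∧ ∀ i < 7, chk3 n i = true := by
  have h := chk_true
  unfold chk at h
  simp only [Bool.and_eq_true, List.all_eq_true, List.mem_range, Bool.or_eq_true,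
    decide_eq_true_eq] at h
  exact (h.2 n hn).2.resolve_left h0

private theorem lt56 {n i : ℕ} (hn : n < 56) (hi : i < 7) : nx n i < 56 := by
  have h := c1 hn hi
  simp only [chk1, Bool.and_eq_true, Bool.or_eq_true, decide_eq_true_eq] at h
  exact h.1.1

private theorem nxnx {n i : ℕ} (hn : n < 56) (hi : i < 7) : nx (nx n i) i = n := by
  have h := c1 hn hi
  simp only [chk1, Bool.and_eq_true, Bool.or_eq_true, decide_eq_true_eq] at h
  exact h.1.2

private theorem tri {n i : ℕ} (hn : n < 56) (hi : i < 7) : (pr n i = 0 ∧ nx n i = n) ∨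
    (pr n i = 1 ∧ pr (nx n i) i = 2) ∨ (pr n i = 2 ∧ pr (nx n i) i = 1 ∧ nx n i < n) := by
  have h := c1 hn hi
  simp only [chk1, Bool.and_eq_true, Bool.or_eq_true, decide_eq_true_eq] at h
  tauto

private theorem parlt {n : ℕ} (hn : n < 56) (h0 : n ≠ 0) : par n < n ∧ lab n < 7 ∧
    pr (par n) (lab n) = 1 ∧ nx (par n) (lab n) = n := by
  have h := (c2 hn h0).1
  simp only [chk2, Bool.and_eq_true, decide_eq_true_eq] at h
  tauto

private theorem f4 {n i : ℕ} (hn : n < 56) (h0 : n ≠ 0) (hi : i < 7) (hp : pr n i = 2) :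
    i = lab n ∨ (meet i (lab n) = false ∧ pr (par n) i = 2 ∧ pr (nx n i) (lab n) = 2 ∧
      nx (nx n i) (lab n) = nx (par n) i) := by
  have h := (c2 hn h0).2 i hi
  simp only [chk3, Bool.and_eq_true, Bool.or_eq_true, decide_eq_true_eq, Bool.not_eq_true'] at h
  tauto

private theorem f5 {n i : ℕ} (hn : n < 56) (h0 : n ≠ 0) (hi : i < 7) (hp : pr n i = 0) :
    (meet i (lab n) = false ∧ i ≠ lab n ∧ pr (par n) i = 0) ∨
      (meet i (lab n) = true ∧ pr (par n) i = 2 ∧ pr (nx (par n) i) (lab n) = 0) := by
  have h := (c2 hn h0).2 i hi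
  simp only [chk3, Bool.and_eq_true, Bool.or_eq_true, decide_eq_true_eq, Bool.not_eq_true'] at h
  tauto

private theorem f6 {n i : ℕ} (hn : n < 56) (h0 : n ≠ 0) (hi : i < 7) (hp : pr n i = 1) :
    (meet i (lab n) = false ∧ i ≠ lab n ∧ pr (par n) i = 1) ∨
      (meet i (lab n) = true ∧ pr (par n) i = 0) := by
  have h := (c2 hn h0).2 i hi
  simp only [chk3, Bool.and_eq_true, Bool.or_eq_true, decide_eq_true_eq, Bool.not_eq_true'] at h
  tauto

section group

variable {G : Type*} [Group G]

private def gg (A : ℕ → G) (n : ℕ) : G :=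
  if h : par n < n then gg A (par n) * A (lab n) else 1
termination_by n

private theorem gg_zero (A : ℕ → G) : gg A 0 = 1 := by
  rw [gg, dif_neg (Nat.not_lt_zero _)]

private theorem gg_succ (A : ℕ → G) {n : ℕ} (hn : n < 56) (h0 : n ≠ 0) :
    gg A n = gg A (par n) * A (lab n) := by
  rw [gg, dif_pos (parlt hn h0).1]

/-- what is needed of a state -/
private structure St (A : ℕ → G) (H : Subgroup G) (n : ℕ) : Prop where
  z : ∀ i < 7, pr n i = 0 → gg A n * A i * (gg A n)⁻¹ ∈ H
  u : ∀ i < 7, pr n i = 1 → gg A n * A i ^ 2 * (gg A n)⁻¹ ∈ H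
  d : ∀ i < 7, pr n i = 2 → ∃ h ∈ H, gg A n = h * gg A (nx n i) * A i

private theorem st {A : ℕ → G} {H : Subgroup G}
    (hb : ∀ i < 7, ∀ j < 7, meet i j = true → A i * A j * A i = A j * A i * A j)
    (hc : ∀ i < 7, ∀ j < 7, meet i j = false → i ≠ j → A i * A j = A j * A i)
    (h1 : A 1 ^ 2 ∈ H) (h2 : ∀ i < 7, i ≠ 1 → A i ∈ H) : ∀ n < 56, St A H n := by
  intro n
  induction n using Nat.strong_induction_on with
  | _ n ih =>
  intro hn
  by_cases h0 : n = 0
  · subst h0
    refine ⟨fun i hi hp => ?_, fun i hi hp => ?_, fun i hi hp => ?_⟩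
    · rw [c0 hi] at hp
      rw [gg_zero, one_mul, inv_one, mul_one]
      exact h2 i hi fun h => by simp [h] at hp
    · rw [c0 hi] at hp
      have : i = 1 := by
        by_contra h
        simp [h] at hp
      rw [this, gg_zero, one_mul, inv_one, mul_one]
      exact h1
    · rw [c0 hi] at hp
      split_ifs at hp <;> omega
  · obtain ⟨m1, m2, m3, m4⟩ := parlt hn h0
    have hm56 : par n < 56 := by omega
    have hm := ih (par n) m1 hm56
    have hg := gg_succ A hn h0
    refine ⟨fun i hi hp => ?_, fun i hi hp => ?_, fun i hi hp => ?_⟩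
    · rcases f5 hn h0 hi hp with ⟨k1, k2, k3⟩ | ⟨k1, k2, k3⟩
      · have e := hc i hi (lab n) m2 k1 k2
        have := hm.z i hi k3
        have e2 : gg A n * A i * (gg A n)⁻¹ = gg A (par n) * A i * (gg A (par n))⁻¹ := by
          rw [hg, mul_inv_rev]
          calc gg A (par n) * A (lab n) * A i * ((A (lab n))⁻¹ * (gg A (par n))⁻¹)
              = gg A (par n) * (A (lab n) * A i) * (A (lab n))⁻¹ * (gg A (par n))⁻¹ := by group
            _ = gg A (par n) * A i * (gg A (par n))⁻¹ := by rw [← e]; group
        rw [e2]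
        exact this
      · obtain ⟨h, hh, he⟩ := hm.d i hi k2
        have hr : nx (par n) i < n := by
          rcases tri hm56 hi with h3 | h3 | h3 <;> omega
        have hz := (ih (nx (par n) i) hr (by omega)).z (lab n) m2 k3
        have e := hb i hi (lab n) m2 k1
        have e2 : gg A n * A i * (gg A n)⁻¹ =
            h * (gg A (nx (par n) i) * A (lab n) * (gg A (nx (par n) i))⁻¹) * h⁻¹ := by
          have e3 : A i * A (lab n) * A i * (A (lab n))⁻¹ * (A i)⁻¹ = A (lab n) := by
            rw [e]
            group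
          rw [hg, he]
          calc h * gg A (nx (par n) i) * A i * A (lab n) * A i *
                (h * gg A (nx (par n) i) * A i * A (lab n))⁻¹
              = h * (gg A (nx (par n) i) * (A i * A (lab n) * A i * (A (lab n))⁻¹ * (A i)⁻¹) *
                (gg A (nx (par n) i))⁻¹) * h⁻¹ := by group
            _ = _ := by rw [e3]
        rw [e2]
        exact H.mul_mem (H.mul_mem hh hz) (H.inv_mem hh)
    · rcases f6 hn h0 hi hp with ⟨k1, k2, k3⟩ | ⟨k1, k2⟩
      · have e := hc i hi (lab n) m2 k1 k2
        have := hm.u i hi k3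
        have e2 : gg A n * A i ^ 2 * (gg A n)⁻¹ =
            gg A (par n) * A i ^ 2 * (gg A (par n))⁻¹ := by
          have e3 : A (lab n) * A i ^ 2 * (A (lab n))⁻¹ = A i ^ 2 := by
            rw [((show Commute (A (lab n)) (A i) from e.symm).pow_right 2).eq]
            group
          rw [hg]
          calc gg A (par n) * A (lab n) * A i ^ 2 * (gg A (par n) * A (lab n))⁻¹
              = gg A (par n) * (A (lab n) * A i ^ 2 * (A (lab n))⁻¹) * (gg A (par n))⁻¹ := by group
            _ = _ := by rw [e3]
        rw [e2]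
        exact this
      · have hz := hm.z i hi k2
        have hu := hm.u (lab n) m2 m3
        have e := hb i hi (lab n) m2 k1
        have e3 : A (lab n) * A i ^ 2 * (A (lab n))⁻¹ = (A i)⁻¹ * A (lab n) ^ 2 * A i := by
          have e4 : A (lab n) * A i * (A (lab n))⁻¹ = (A i)⁻¹ * A (lab n) * A i := by
            rw [mul_inv_eq_iff_eq_mul]
            calc A (lab n) * A i = (A i)⁻¹ * (A i * A (lab n) * A i) := by group
              _ = (A i)⁻¹ * A (lab n) * A i * A (lab n) := by rw [e]; group
          calc A (lab n) * A i ^ 2 * (A (lab n))⁻¹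
              = (A (lab n) * A i * (A (lab n))⁻¹) * (A (lab n) * A i * (A (lab n))⁻¹) := by
                rw [pow_two]; group
            _ = (A i)⁻¹ * A (lab n) ^ 2 * A i := by
                rw [e4, pow_two]; group
        have e2 : gg A n * A i ^ 2 * (gg A n)⁻¹ =
            (gg A (par n) * A i * (gg A (par n))⁻¹)⁻¹ *
              (gg A (par n) * A (lab n) ^ 2 * (gg A (par n))⁻¹) *
              (gg A (par n) * A i * (gg A (par n))⁻¹) := by
          rw [hg]
          calc gg A (par n) * A (lab n) * A i ^ 2 * (gg A (par n) * A (lab n))⁻¹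
              = gg A (par n) * (A (lab n) * A i ^ 2 * (A (lab n))⁻¹) * (gg A (par n))⁻¹ := by group
            _ = _ := by rw [e3]; group
        rw [e2]
        exact H.mul_mem (H.mul_mem (H.inv_mem hz) hu) hz
    · rcases f4 hn h0 hi hp with rfl | ⟨k1, k2, k3, k4⟩
      · refine ⟨1, H.one_mem, ?_⟩
        have e : nx n (lab n) = par n := by
          have := nxnx hm56 m2
          rwa [m4] at this
        rw [e, one_mul, hg]
      · have hne : i ≠ lab n := by
          intro h
          rw [← h] at m3
          omega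
        obtain ⟨a, ha, hae⟩ := hm.d i hi k2
        have hlt : nx n i < n := by
          rcases tri hn hi with h3 | h3 | h3 <;> omega
        obtain ⟨b, hb', hbe⟩ := (ih (nx n i) hlt (by omega)).d (lab n) m2 k3
        rw [k4] at hbe
        refine ⟨a * b⁻¹, H.mul_mem ha (H.inv_mem hb'), ?_⟩
        have e := hc i hi (lab n) m2 k1 hne
        rw [hg, hae, hbe]
        calc a * gg A (nx (par n) i) * A i * A (lab n)
            = a * gg A (nx (par n) i) * (A i * A (lab n)) := by group
          _ = a * b⁻¹ * (b * gg A (nx (par n) i) * A (lab n)) * A i := by rw [e]; group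

private theorem step {A : ℕ → G} {H : Subgroup G} (hst : ∀ n < 56, St A H n) {n i : ℕ}
    (hn : n < 56) (hi : i < 7) : ∃ h ∈ H, gg A n * A i = h * gg A (nx n i) := by
  rcases tri hn hi with ⟨h1, h2⟩ | ⟨h1, h2⟩ | ⟨h1, h2, h3⟩
  · refine ⟨_, (hst n hn).z i hi h1, ?_⟩
    rw [h2]
    group
  · obtain ⟨h, hh, he⟩ := (hst (nx n i) (lt56 hn hi)).d i hi h2
    rw [nxnx hn hi] at he
    refine ⟨h⁻¹, H.inv_mem hh, ?_⟩
    rw [he]
    group
  · obtain ⟨h, hh, he⟩ := (hst n hn).d i hi h1
    have hu := (hst (nx n i) (lt56 hn hi)).u i hi h2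
    refine ⟨_, H.mul_mem hh hu, ?_⟩
    rw [he, pow_two]
    group

private theorem fin_nat {A : ℕ → G} {H : Subgroup G}
    (hb : ∀ i < 7, ∀ j < 7, meet i j = true → A i * A j * A i = A j * A i * A j)
    (hc : ∀ i < 7, ∀ j < 7, meet i j = false → i ≠ j → A i * A j = A j * A i)
    (h1 : A 1 ^ 2 ∈ H) (h2 : ∀ i < 7, i ≠ 1 → A i ∈ H)
    (hg : Subgroup.closure {x | ∃ i < 7, A i = x} = ⊤) : H.FiniteIndex := by
  have hst := st hb hc h1 h2
  have hall : ∀ x : G, ∃ n < 56, ∃ h ∈ H, x = h * gg A n := by
    intro x
    have hx : x ∈ Subgroup.closure {x | ∃ i < 7, A i = x} := by rw [hg]; trivial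
    induction hx using Subgroup.closure_induction_right with
    | one => exact ⟨0, by norm_num, 1, H.one_mem, by rw [gg_zero, one_mul]⟩
    | mul_right x hx y hy ih =>
      obtain ⟨i, hi, rfl⟩ := hy
      obtain ⟨n, hn, h, hh, rfl⟩ := ih
      obtain ⟨k, hk, he⟩ := step hst hn hi
      exact ⟨nx n i, lt56 hn hi, h * k, H.mul_mem hh hk, by rw [mul_assoc, he, mul_assoc]⟩
    | mul_inv_cancel x hx y hy ih =>
      obtain ⟨i, hi, rfl⟩ := hy
      obtain ⟨n, hn, h, hh, rfl⟩ := ih
      obtain ⟨k, hk, he⟩ := step hst (lt56 hn hi) hi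
      rw [nxnx hn hi] at he
      refine ⟨nx n i, lt56 hn hi, h * k⁻¹, H.mul_mem hh (H.inv_mem hk), ?_⟩
      have e : gg A n = k⁻¹ * gg A (nx n i) * A i := by
        rw [mul_assoc, he]
        group
      rw [e]
      group
  have hsur : Function.Surjective fun n : Fin 56 => (((gg A n)⁻¹ : G) : G ⧸ H) := by
    intro q
    induction q using Quotient.inductionOn' with
    | h x =>
      obtain ⟨n, hn, h, hh, he⟩ := hall x⁻¹
      refine ⟨⟨n, hn⟩, ?_⟩
      show (((gg A n)⁻¹ : G) : G ⧸ H) = (x : G ⧸ H)
      rw [QuotientGroup.eq]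
      have : x⁻¹ = h * gg A n := he
      have e : (gg A n)⁻¹⁻¹ * x = h⁻¹ := by
        have e2 : x = (gg A n)⁻¹ * h⁻¹ := by
          rw [← inv_inj, this]
          group
        rw [e2]
        group
      rw [e]
      exact H.inv_mem hh
  have hfin : Finite (G ⧸ H) := Finite.of_surjective _ hsur
  exact Subgroup.finiteIndex_of_finite_quotient

/-- In a group generated by seven elements with the braid relations of type `E_7` the subgroup
generated by the square of the end of the long arm and the other generators has finite index. -/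
theorem fin_index (a : Fin 7 → G)
    (hb : ∀ i j : Fin 7, i < j → E3.Meet i j → a i * a j * a i = a j * a i * a j)
    (hc : ∀ i j : Fin 7, i < j → ¬ E3.Meet i j → a i * a j = a j * a i)
    (hg : Subgroup.closure (Set.range a) = ⊤) :
    (Subgroup.closure {a 1 ^ 2, a 2, a 3, a 4, a 5, a 6, a 0}).FiniteIndex := by
  obtain ⟨A, hA⟩ : ∃ A : ℕ → G, ∀ i (hi : i < 7), A i = a ⟨i, hi⟩ :=
    ⟨fun i => if hi : i < 7 then a ⟨i, hi⟩ else 1, fun i hi => dif_pos hi⟩
  have hmeet : ∀ i j : ℕ, i < j → j < 7 → (meet i j = true ↔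
      (1 ≤ i ∧ i + 1 = j) ∨ (i = 0 ∧ j = 4)) := by
    intro i j hij hj
    simp only [meet, Bool.or_eq_true, Bool.and_eq_true, decide_eq_true_eq]
    omega
  have hsymm : ∀ i j : ℕ, meet i j = meet j i := by
    intro i j
    rw [Bool.eq_iff_iff]
    simp only [meet, Bool.or_eq_true, Bool.and_eq_true, decide_eq_true_eq]
    omega
  have hself : ∀ i : ℕ, meet i i = false := by
    intro i
    rw [Bool.eq_false_iff]
    simp only [meet, ne_eq, Bool.or_eq_true, Bool.and_eq_true, decide_eq_true_eq]
    omega
  have hb1 : ∀ i j : ℕ, i < j → j < 7 → meet i j = true → A i * A j * A i = A j * A i * A j := by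
    intro i j hij hj hm
    rw [hA i (by omega), hA j hj]
    exact hb _ _ hij ((hmeet i j hij hj).1 hm)
  have hc1 : ∀ i j : ℕ, i < j → j < 7 → meet i j = false → A i * A j = A j * A i := by
    intro i j hij hj hm
    rw [hA i (by omega), hA j hj]
    refine hc _ _ hij fun h => ?_
    have h' := (hmeet i j hij hj).2 h
    rw [hm] at h'
    exact Bool.false_ne_true h'
  refine fin_nat (A := A) (H := Subgroup.closure {a 1 ^ 2, a 2, a 3, a 4, a 5, a 6, a 0})
    ?_ ?_ ?_ ?_ ?_
  · intro i hi j hj hm
    rcases lt_trichotomy i j with h | rfl | h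
    · exact hb1 i j h hj hm
    · rfl
    · rw [hsymm] at hm
      exact (hb1 j i h hi hm).symm
  · intro i hi j hj hm hne
    rcases lt_or_gt_of_ne hne with h | h
    · exact hc1 i j h hj hm
    · rw [hsymm] at hm
      exact (hc1 j i h hi hm).symm
  · rw [hA 1 (by norm_num)]
    exact Subgroup.subset_closure (Or.inl rfl)
  · intro i hi h1
    rw [hA i hi]
    apply Subgroup.subset_closure
    interval_cases i
    · exact Or.inr (Or.inr (Or.inr (Or.inr (Or.inr (Or.inr rfl)))))
    · exact absurd rfl h1
    · exact Or.inr (Or.inl rfl)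
    · exact Or.inr (Or.inr (Or.inl rfl))
    · exact Or.inr (Or.inr (Or.inr (Or.inl rfl)))
    · exact Or.inr (Or.inr (Or.inr (Or.inr (Or.inl rfl))))
    · exact Or.inr (Or.inr (Or.inr (Or.inr (Or.inr (Or.inl rfl)))))
  · have : {x | ∃ i < 7, A i = x} = Set.range a := by
      ext x
      constructor
      · rintro ⟨i, hi, rfl⟩
        exact ⟨⟨i, hi⟩, (hA i hi).symm⟩
      · rintro ⟨i, rfl⟩
        exact ⟨i, i.2, hA i i.2⟩
    rw [this, hg]

end group

/-- A subgroup with `T 1 ^ 2` and the other `T i` has finite index. -/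
theorem fin_index_of_mem {R : Set (FreeGroup (Fin 7))} (hR : E3.modRels ⊆ R)
    (H : Subgroup (PresentedGroup R)) (h1 : (PresentedGroup.of 1 : PresentedGroup R) ^ 2 ∈ H)
    (h2 : ∀ i : Fin 7, i ≠ 1 → (PresentedGroup.of i : PresentedGroup R) ∈ H) : H.FiniteIndex := by
  have h := fin_index (fun i => (PresentedGroup.of i : PresentedGroup R)) ?_ ?_ ?_
  · refine @Subgroup.finiteIndex_of_le _ _ _ _ h ?_
    rw [Subgroup.closure_le]
    rintro x (rfl | rfl | rfl | rfl | rfl | rfl | rfl)
    · exact h1
    all_goals exact h2 _ (by decide)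
  · intro i j hij hm
    have h1 : E3.c i * E3.c j * E3.c i * (E3.c j * E3.c i * E3.c j)⁻¹ ∈ R :=
      hR (Or.inl (Or.inl ⟨i, j, hij, hm, rfl⟩))
    have h2 := PresentedGroup.one_of_mem (rels := R) h1
    rw [map_mul, map_inv, mul_inv_eq_one] at h2
    simp only [map_mul] at h2
    exact h2
  · intro i j hij hm
    have h1 : E3.c i * E3.c j * (E3.c j * E3.c i)⁻¹ ∈ R :=
      hR (Or.inl (Or.inr ⟨i, j, hij, hm, rfl⟩))
    have h2 := PresentedGroup.one_of_mem (rels := R) h1
    rw [map_mul, map_inv, mul_inv_eq_one] at h2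
    simp only [map_mul] at h2
    exact h2
  · exact PresentedGroup.closure_range_of _

/-- `⟨T 1 ^ 2, T 2, …, T 6, T 0⟩` has finite index in the mapping class group of genus `3`
(`hR : E3.modRels ⊆ R`; for `Wajnryb.Mod 3` take `Wajnryb.rels3.ge`). -/
theorem fin_index_pres {R : Set (FreeGroup (Fin 7))} (hR : E3.modRels ⊆ R) :
    (Subgroup.closure {(PresentedGroup.of 1 : PresentedGroup R) ^ 2,
    PresentedGroup.of 2, PresentedGroup.of 3, PresentedGroup.of 4, PresentedGroup.of 5,
    PresentedGroup.of 6, PresentedGroup.of 0}).FiniteIndex := by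
  refine fin_index_of_mem hR _ (Subgroup.subset_closure (Or.inl rfl)) fun i hi => ?_
  apply Subgroup.subset_closure
  fin_cases i
  · exact Or.inr (Or.inr (Or.inr (Or.inr (Or.inr (Or.inr rfl)))))
  · exact absurd rfl hi
  · exact Or.inr (Or.inl rfl)
  · exact Or.inr (Or.inr (Or.inl rfl))
  · exact Or.inr (Or.inr (Or.inr (Or.inl rfl)))
  · exact Or.inr (Or.inr (Or.inr (Or.inr (Or.inl rfl))))
  · exact Or.inr (Or.inr (Or.inr (Or.inr (Or.inr (Or.inl rfl)))))

theorem fin_index_mod3 : (Subgroup.closure {(PresentedGroup.of 1 : E3.Mod3) ^ 2,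
    PresentedGroup.of 2, PresentedGroup.of 3, PresentedGroup.of 4, PresentedGroup.of 5,
    PresentedGroup.of 6, PresentedGroup.of 0}).FiniteIndex := fin_index_pres le_rfl

end Pool.Agent.H.MP_ee9c6f_al.G3F
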